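import Pool.Agent.helper91.MM.SpecB

set_option autoImplicit false

namespace Pool.Agent.MM

open Pool.Agent.Scheepers Filter Topology Cardinal

theorem PTA (h1 : XBK_stmt) (h2 : BLD_stmt) : PTA_stmt := by
  classical
  intro k hk S hS p h
  obtain ⟨J, hJ⟩ := p.large 1
  let t : Set (ℕ × ℕ) := {w | w.2 = h w.1}
  have ht : t ∈ S.V 1 := by
    rw [hS]
    intro n s hs
    rw [min_eq_left (hk n), Finset.card_le_one]
    intro a ha b hb
    have h1 : a = h n := hs a ha
    have h2 : b = h n := hs b hb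
    rw [h1, h2]
  obtain ⟨z, hz1, hz2⟩ := h2 S p 1 J hJ (fun _ => t) (fun _ _ => ht) pos (fun _ => false)
  refine ⟨z, ⟨J, fun j hj => (hz2 j hj).1⟩, ?_, ?_⟩
  · refine S.inP 1 t ht z ?_
    intro w hw hzF
    let M := max 1 (max w.1 w.2)
    obtain ⟨J1, hJ1⟩ := p.large M
    obtain ⟨j, hj1, hj2⟩ := exists_pos_ge w (max J J1)
    obtain ⟨e, he1, he2, he3, he4⟩ := (hz2 j ((le_max_left _ _).trans hj1)).2.2 M (le_max_left _ _)
      (by rw [hj2]; exact (le_max_left _ _).trans (le_max_right _ _))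
      (by rw [hj2]; exact (le_max_right _ _).trans (le_max_right _ _))
      (by rw [hj2]; exact hw) (hJ1 j ((le_max_right _ _).trans hj1))
    have h3 := hzF e (by rw [he3, hj2])
    rw [he4] at h3
    exact Bool.noConfusion h3
  · intro n e he
    by_cases hlt : e < p.a J
    · exact hz1 e hlt
    · push Not at hlt
      obtain ⟨j, hj1, hj2, hj3⟩ := (h1 S p).1 J e hlt
      refine (hz2 j hj1).2.1 e hj2 hj3 ?_
      rw [he]
      exact rfl

end Pool.Agent.MM
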