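import Pool.Agent.helper91.MM.SpecA

set_option autoImplicit false

namespace Pool.Agent.MM

open Pool.Agent.Scheepers Filter Topology

/-- the admissible sets -/
def SYB_V (N : ℕ) : Set (Set (ℕ × ℕ)) :=
  {t | (∀ s : Finset (ℕ × ℕ), ↑s ⊆ t → s.card ≤ N) ∧
      ∀ n m m', (n, m) ∈ t → (n, m') ∈ t → m = m'}

theorem SYB_mono {N M : ℕ} (h : N ≤ M) : SYB_V N ⊆ SYB_V M :=
  fun _ ht => ⟨fun s hs => (ht.1 s hs).trans h, ht.2⟩

/-- a set with at most `N` elements does not meet all rows `≤ N` -/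
theorem SYB_row {N : ℕ} {t : Set (ℕ × ℕ)} (ht : t ∈ SYB_V N) :
    ∃ r ≤ N, ∀ m, (r, m) ∉ t := by
  by_contra hc
  push Not at hc
  have hc' : ∀ r : ℕ, ∃ m, r ≤ N → (r, m) ∈ t := by
    intro r
    by_cases hr : r ≤ N
    · obtain ⟨m, hm⟩ := hc r hr
      exact ⟨m, fun _ => hm⟩
    · exact ⟨0, fun h => absurd h hr⟩
  choose f hf using hc'
  have h1 := ht.1 ((Finset.range (N + 1)).image fun r => (r, f r)) (by
    intro w hw
    obtain ⟨r, hr, rfl⟩ := Finset.mem_image.1 (Finset.mem_coe.1 hw)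
    exact hf r (Nat.lt_succ_iff.1 (Finset.mem_range.1 hr)))
  rw [Finset.card_image_of_injective _ (fun a b hab => (Prod.ext_iff.1 hab).1),
    Finset.card_range] at h1
  omega

theorem SYB_fin {N : ℕ} {t : Set (ℕ × ℕ)} (ht : t ∈ SYB_V N) : t.Finite := by
  by_contra hc
  obtain ⟨s, hs, hcard⟩ := Set.Infinite.exists_subset_card_eq (s := t) hc (N + 1)
  have := ht.1 s hs
  omega

theorem SYB_lim {N : ℕ} (U : Ultrafilter ℕ) (t : ℕ → Set (ℕ × ℕ)) (ht : ∀ i, t i ∈ SYB_V N) :
    {w | ∀ᶠ i in (U : Filter ℕ), w ∈ t i} ∈ SYB_V N := by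
  constructor
  · intro s hs
    have h1 : ∀ᶠ i in (U : Filter ℕ), ∀ w ∈ s, w ∈ t i :=
      (Filter.eventually_all_finset s).2 fun w hw => hs hw
    obtain ⟨i, hi⟩ := h1.exists
    exact (ht i).1 s fun w hw => hi w hw
  · intro n m m' h1 h2
    have h1' : ∀ᶠ i in (U : Filter ℕ), (n, m) ∈ t i := h1
    have h2' : ∀ᶠ i in (U : Filter ℕ), (n, m') ∈ t i := h2
    obtain ⟨i, hi1, hi2⟩ := (h1'.and h2').exists
    exact (ht i).2 n m m' hi1 hi2

theorem SYB : SYB_stmt := by
  refine ⟨{ V := SYB_V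
            P := {z | ∀ n m m', z ∈ F (n, m) → z ∈ F (n, m') → m = m'}
            mono := fun N M h => SYB_mono h
            out := ?_
            lim := fun N U t ht => SYB_lim U t ht
            union := ?_
            inP := ?_
            excl := ?_ }, fun _ => rfl, rfl⟩
  · intro N t ht
    obtain ⟨r, hr, hm⟩ := SYB_row ht
    exact ⟨(r, 0), hr, Nat.zero_le _, hm 0⟩
  · intro N U t ht
    have hL := SYB_lim U t ht
    have hfin := SYB_fin hL
    have h1 : ∀ᶠ i in (U : Filter ℕ), ∀ w ∈ hfin.toFinset, w ∈ t i :=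
      (Filter.eventually_all_finset hfin.toFinset).2 fun w hw => by
        rw [Set.Finite.mem_toFinset] at hw
        exact hw
    filter_upwards [h1] with i hi
    have hsub : {w | ∀ᶠ i in (U : Filter ℕ), w ∈ t i} ⊆ t i := fun w hw =>
      hi w (by rw [Set.Finite.mem_toFinset]; exact hw)
    rw [Set.union_eq_self_of_subset_left hsub]
    exact SYB_mono (by omega) (ht i)
  · intro N t ht z hz n m m' h1 h2
    apply ht.2 n m m'
    · by_contra hc
      exact hz _ hc h1
    · by_contra hc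
      exact hz _ hc h2
  · intro N
    refine ⟨N + 1, by omega, ?_⟩
    intro t ht Q
    obtain ⟨r, hr, hm⟩ := SYB_row ht
    by_cases hQ : (r, 0) ∈ Q
    · left
      refine ⟨(r, 0), hQ, ?_, ?_⟩
      · intro s hs
        have h1 := ht.1 (s.erase (r, 0)) (by
          intro w hw
          rw [Finset.mem_coe, Finset.mem_erase] at hw
          exact (hs (Finset.mem_coe.2 hw.2)).resolve_left hw.1)
        have h2 : s.card - 1 ≤ (s.erase ((r, 0) : ℕ × ℕ)).card := Finset.pred_card_le_card_erase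
        omega
      · intro n m m' h1 h2
        rcases h1 with h1 | h1 <;> rcases h2 with h2 | h2
        · have e1 : m = 0 := (Prod.ext_iff.1 h1).2
          have e2 : m' = 0 := (Prod.ext_iff.1 h2).2
          rw [e1, e2]
        · exfalso
          have : n = r := (Prod.ext_iff.1 h1).1
          rw [this] at h2
          exact hm _ h2
        · exfalso
          have : n = r := (Prod.ext_iff.1 h2).1
          rw [this] at h1
          exact hm _ h1
        · exact ht.2 n m m' h1 h2
    · right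
      exact ⟨(r, 0), hQ, hm 0, by omega, by omega⟩

end Pool.Agent.MM
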